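import Mathlib
import Pool.Agent.H.MP_b0ed8d_nt.G35

namespace Pool.Agent.Results.MP_b0ed8d_nt.Yes

open Pool.Agent.H.MP_b0ed8d_nt

/-- number of lattice points in the closed disc of radius `k` about the origin -/
noncomputable def g (k : ℕ) : ℕ := {p : ℤ × ℤ | p.1 ^ 2 + p.2 ^ 2 ≤ (k : ℤ) ^ 2}.ncard

lemma g35 : g 35 = 3853 := by
  have h1 : {p : ℤ × ℤ | p.1 ^ 2 + p.2 ^ 2 ≤ ((35 : ℕ) : ℤ) ^ 2} = encq 0 0 1226 := by
    ext p
    simp only [encq, Set.mem_ofPred_eq, sub_zero]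
    have : ((p.1 : ℝ) ^ 2 + (p.2 : ℝ) ^ 2 < 1226) ↔ p.1 ^ 2 + p.2 ^ 2 < 1226 := by
      exact_mod_cast Iff.rfl
    rw [this]; push_cast; omega
  have h2 := center_count 1 1226 76 36 (37, 37) (by norm_num) (by decide +kernel)
    (0 + (37 : ℤ)) (0 + (37 : ℤ)) 1226 (by norm_num) (by norm_num) (by norm_num)
  have h3 : (grid 76).countP (fun p => Nat.blt (d2 1 (37, 37) p) 1226) = 3853 := by
    decide +kernel
  rw [encq_trans, h3] at h2
  rw [g, h1, Set.ncard_def, h2, ENat.toNat_coe]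

theorem result : ∃ k : ℕ, 1 ≤ k ∧ k ≠ 1 ∧ k ≠ 10 ∧ ¬ IsMC (g k) :=
  ⟨35, by norm_num, by norm_num, by norm_num, by rw [g35]; exact g35_non⟩

end Pool.Agent.Results.MP_b0ed8d_nt.Yes
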